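import Pool.Agent.H67.AT.Targets
import Pool.Agent.H67.AT.Ser

/-!
MP_81fcf0_co, blocks of a Markov chain: row COE, coefficients of the powers of `P + z M`.
-/

set_option autoImplicit false

open Finset PowerSeries Pool.Agent.H67.AT

namespace Pool.Agent.H48.AT

section
variable {X : Type} [Fintype X] [DecidableEq X] (P M : Matrix X X ℝ)

/-- row sums of the coefficients -/
noncomputable def rs (q t : ℕ) (x : X) : ℝ := ∑ z, coeff q ((linm P M ^ t) x z)

theorem rs_zero_zero (x : X) : rs P M 0 0 x = 1 := by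
  unfold rs
  rw [pow_zero]
  have h : ∀ z ∈ (Finset.univ : Finset X), coeff 0 ((1 : Matrix X X PS) x z) =
      (if x = z then (1 : ℝ) else 0) := by
    intro z _
    rw [Matrix.one_apply]
    split_ifs <;> simp
  rw [Finset.sum_congr rfl h, Finset.sum_ite_eq, if_pos (Finset.mem_univ x)]

theorem rs_succ_zero (q : ℕ) (x : X) : rs P M (q + 1) 0 x = 0 := by
  unfold rs
  rw [pow_zero]
  refine Finset.sum_eq_zero fun z _ => ?_
  rw [Matrix.one_apply]
  split_ifs
  · rw [PowerSeries.coeff_one, if_neg (Nat.succ_ne_zero q)]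
  · simp

theorem coeff_lin_zero (p m : ℝ) (F : PS) :
    coeff 0 ((PowerSeries.C p + PowerSeries.C m * PowerSeries.X) * F) = p * coeff 0 F := by
  rw [add_mul, map_add, PowerSeries.coeff_C_mul, mul_assoc, PowerSeries.coeff_C_mul,
    PowerSeries.coeff_zero_X_mul, mul_zero, add_zero]

theorem coeff_lin_succ (p m : ℝ) (F : PS) (q : ℕ) :
    coeff (q + 1) ((PowerSeries.C p + PowerSeries.C m * PowerSeries.X) * F) =
      p * coeff (q + 1) F + m * coeff q F := by
  rw [add_mul, map_add, PowerSeries.coeff_C_mul, mul_assoc, PowerSeries.coeff_C_mul,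
    PowerSeries.coeff_succ_X_mul]

theorem rs_zero_succ (t : ℕ) (x : X) : rs P M 0 (t + 1) x = ∑ u, P x u * rs P M 0 t u := by
  unfold rs
  have h : ∀ z ∈ (Finset.univ : Finset X), coeff 0 ((linm P M ^ (t + 1)) x z) =
      ∑ u, P x u * coeff 0 ((linm P M ^ t) u z) := by
    intro z _
    rw [pow_succ', Matrix.mul_apply, map_sum]
    exact Finset.sum_congr rfl fun u _ => coeff_lin_zero _ _ _
  rw [Finset.sum_congr rfl h, Finset.sum_comm]
  exact Finset.sum_congr rfl fun u _ => (Finset.mul_sum _ _ _).symm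

theorem rs_succ_succ (q t : ℕ) (x : X) :
    rs P M (q + 1) (t + 1) x = ∑ u, P x u * rs P M (q + 1) t u + ∑ u, M x u * rs P M q t u := by
  unfold rs
  have h : ∀ z ∈ (Finset.univ : Finset X), coeff (q + 1) ((linm P M ^ (t + 1)) x z) =
      ∑ u, P x u * coeff (q + 1) ((linm P M ^ t) u z) +
        ∑ u, M x u * coeff q ((linm P M ^ t) u z) := by
    intro z _
    rw [pow_succ', Matrix.mul_apply, map_sum, ← Finset.sum_add_distrib]
    exact Finset.sum_congr rfl fun u _ => coeff_lin_succ _ _ _ _
  rw [Finset.sum_congr rfl h, Finset.sum_add_distrib]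
  congr 1
  · rw [Finset.sum_comm]
    exact Finset.sum_congr rfl fun u _ => (Finset.mul_sum _ _ _).symm
  · rw [Finset.sum_comm]
    exact Finset.sum_congr rfl fun u _ => (Finset.mul_sum _ _ _).symm

/-- expected number of uses -/
noncomputable def RR (t : ℕ) (x : X) : ℝ := ∑ i ∈ range t, ∑ v, (P ^ i * M) x v

theorem RR_succ (t : ℕ) (x : X) : RR P M (t + 1) x = ∑ u, P x u * RR P M t u + ∑ u, M x u := by
  unfold RR
  rw [Finset.sum_range_succ']
  congr 1
  · have h : ∀ i ∈ range t, ∑ v, (P ^ (i + 1) * M) x v =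
        ∑ u, P x u * ∑ v, (P ^ i * M) u v := by
      intro i _
      have h1 : ∀ v ∈ (Finset.univ : Finset X), (P ^ (i + 1) * M) x v =
          ∑ u, P x u * (P ^ i * M) u v := by
        intro v _
        rw [pow_succ', Matrix.mul_assoc, Matrix.mul_apply]
      rw [Finset.sum_congr rfl h1, Finset.sum_comm]
      exact Finset.sum_congr rfl fun u _ => (Finset.mul_sum _ _ _).symm
    rw [Finset.sum_congr rfl h, Finset.sum_comm]
    exact Finset.sum_congr rfl fun u _ => (Finset.mul_sum _ _ _).symm
  · rw [pow_zero, Matrix.one_mul]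

theorem PM_nonneg (hP : ∀ x z, 0 ≤ P x z) (hM : ∀ x z, 0 ≤ M x z) (i : ℕ) (x v : X) :
    (0 : ℝ) ≤ (P ^ i * M) x v := by
  induction i generalizing x with
  | zero =>
    rw [pow_zero, Matrix.one_mul]
    exact hM x v
  | succ i ih =>
    rw [pow_succ', Matrix.mul_assoc, Matrix.mul_apply]
    exact Finset.sum_nonneg fun u _ => mul_nonneg (hP x u) (ih u)

theorem row_part (n : ℕ) (a : ℝ) (ha : 0 ≤ a) (hP : ∀ x z, 0 ≤ P x z) (hM : ∀ x z, 0 ≤ M x z)
    (hrow : ∀ x, ∑ z, P x z ≤ 1) (hup : ∀ x, ∑ t ∈ range n, ∑ z, (P ^ t * M) x z ≤ a) :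
    ∀ (q t : ℕ), t ≤ n → ∀ x, rs P M q t x ≤ a ^ q := by
  have hR : ∀ t ≤ n, ∀ x, RR P M t x ≤ a := by
    intro t ht x
    refine le_trans ?_ (hup x)
    unfold RR
    exact Finset.sum_le_sum_of_subset_of_nonneg (Finset.range_mono ht) fun i _ _ =>
      Finset.sum_nonneg fun v _ => PM_nonneg P M hP hM i x v
  intro q
  induction q with
  | zero =>
    intro t
    induction t with
    | zero =>
      intro _ x
      rw [rs_zero_zero, pow_zero]
    | succ t ih =>
      intro ht x
      have ih' := ih (by omega)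
      rw [rs_zero_succ, pow_zero]
      calc ∑ u, P x u * rs P M 0 t u ≤ ∑ u, P x u * 1 :=
            Finset.sum_le_sum fun u _ => mul_le_mul_of_nonneg_left
              (by have := ih' u; rwa [pow_zero] at this) (hP x u)
        _ = ∑ u, P x u := by simp
        _ ≤ 1 := hrow x
  | succ q ihq =>
    have haq : 0 ≤ a ^ q := pow_nonneg ha q
    have key : ∀ t ≤ n, ∀ x, rs P M (q + 1) t x ≤ a ^ q * RR P M t x := by
      intro t
      induction t with
      | zero =>
        intro _ x
        rw [rs_succ_zero]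
        unfold RR
        simp
      | succ t ih =>
        intro ht x
        have ih' := ih (by omega)
        rw [rs_succ_succ, RR_succ, mul_add]
        have h1 : ∑ u, P x u * rs P M (q + 1) t u ≤ a ^ q * ∑ u, P x u * RR P M t u := by
          rw [Finset.mul_sum]
          refine Finset.sum_le_sum fun u _ => ?_
          have h2 := mul_le_mul_of_nonneg_left (ih' u) (hP x u)
          calc P x u * rs P M (q + 1) t u ≤ P x u * (a ^ q * RR P M t u) := h2
            _ = _ := by ring
        have h3 : ∑ u, M x u * rs P M q t u ≤ a ^ q * ∑ u, M x u := by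
          rw [Finset.mul_sum]
          refine Finset.sum_le_sum fun u _ => ?_
          have h2 := mul_le_mul_of_nonneg_left (ihq t (by omega) u) (hM x u)
          calc M x u * rs P M q t u ≤ M x u * a ^ q := h2
            _ = _ := by ring
        exact add_le_add h1 h3
    intro t ht x
    calc rs P M (q + 1) t x ≤ a ^ q * RR P M t x := key t ht x
      _ ≤ a ^ q * a := mul_le_mul_of_nonneg_left (hR t ht x) haq
      _ = a ^ (q + 1) := (pow_succ a q).symm

end

theorem pf_COE : T_COE := by
  intro X _ _ P M n a ha hP hM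
  refine ⟨fun hrow hup t ht q x => row_part P M n a ha hP hM hrow hup q t ht x,
    fun hcol hum t ht q z => ?_⟩
  have h1 : linm P.transpose M.transpose = (linm P M).transpose := by
    ext x z
    rfl
  have h2 : ∀ x, coeff q ((linm P M ^ t) x z) =
      coeff q ((linm P.transpose M.transpose ^ t) z x) := by
    intro x
    rw [h1, ← Matrix.transpose_pow, Matrix.transpose_apply]
  have h3 : ∀ (i : ℕ) (z x : X), (P.transpose ^ i * M.transpose) z x = (M * P ^ i) x z := by
    intro i z x
    rw [← Matrix.transpose_pow, ← Matrix.transpose_mul, Matrix.transpose_apply]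
  rw [Finset.sum_congr rfl fun x _ => h2 x]
  refine row_part P.transpose M.transpose n a ha (fun x z => hP z x) (fun x z => hM z x)
    (fun x => hcol x) (fun x => ?_) q t ht z
  have h4 := hum x
  refine le_trans (le_of_eq ?_) h4
  refine Finset.sum_congr rfl fun i _ => Finset.sum_congr rfl fun y _ => ?_
  exact h3 i x y

end Pool.Agent.H48.AT
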