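import Pool.Agent.H67.AT.Targets
import Pool.Agent.H67.AT.Ser

/-!
MP_81fcf0_co, blocks of a Markov chain: row EX0, expectation zero.
-/

set_option autoImplicit false

open Finset PowerSeries Pool.Agent.H67.AT

namespace Pool.Agent.H48.AT

open Pool.Agent.H90.SPW

theorem P_pos {X E Y : Type} [Fintype X] [Fintype E] (c : Ch X E Y) (l : List E)
    (hw : Pool.Agent.H66.SLP.Walk c l) (h0 : 0 < l.length) :
    ∀ (t : ℕ) (ht : t < l.length), (0 : ℝ) < c.P t (c.src l[0]) (c.src l[t]) := by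
  classical
  intro t
  induction t with
  | zero =>
    intro ht
    rw [Ch.P_zero, if_pos rfl]
    exact one_pos
  | succ t ih =>
    intro ht
    have h1 := ih (by omega)
    rw [Ch.P_succ]
    have hch := List.isChain_iff_getElem.mp hw.2 t ht
    have h2 : ∀ e ∈ (Finset.univ : Finset E), (0 : ℝ) ≤
        (if c.tgt e = c.src l[t + 1] then c.P t (c.src l[0]) (c.src e) * c.wt e else 0) := by
      intro e _
      split_ifs
      · exact mul_nonneg (c.P_nonneg _ _ _) (c.wt_nonneg e)
      · exact le_rfl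
    have h3 := Finset.single_le_sum h2 (Finset.mem_univ l[t])
    have h4 : (if c.tgt l[t] = c.src l[t + 1] then
        c.P t (c.src l[0]) (c.src l[t]) * c.wt l[t] else 0) =
        c.P t (c.src l[0]) (c.src l[t]) * c.wt l[t] := if_pos hch
    have h5 : (0 : ℝ) < c.wt l[t] := hw.1 _ (List.getElem_mem _)
    have h6 := mul_pos h1 h5
    rw [← h4] at h6
    exact lt_of_lt_of_le h6 h3

theorem pf_EX0 : T_EX0 := by
  classical
  intro X E Y _ _ _ c n s f hs hf hex l hl hw hh
  have hn : ∀ (t : ℕ) (x : X) (e : E), 0 ≤ s x * c.P t x (c.src e) * c.wt e * f e := fun t x e =>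
    mul_nonneg (mul_nonneg (mul_nonneg (hs x) (c.P_nonneg _ _ _)) (c.wt_nonneg e)) (hf e)
  unfold Pool.Agent.H66.SLP.exf at hex
  rw [Finset.sum_eq_zero_iff_of_nonneg (fun t _ => Finset.sum_nonneg fun x _ =>
    Finset.sum_nonneg fun e _ => hn t x e)] at hex
  refine List.sum_eq_zero fun y hy => ?_
  obtain ⟨e, he, rfl⟩ := List.mem_map.mp hy
  obtain ⟨t, ht, rfl⟩ := List.mem_iff_getElem.mp he
  have h0 : 0 < l.length := by omega
  have h1 := hex t (Finset.mem_range.mpr (by omega))
  rw [Finset.sum_eq_zero_iff_of_nonneg (fun x _ => Finset.sum_nonneg fun e _ => hn t x e)] at h1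
  have h2 := h1 (c.src l[0]) (Finset.mem_univ _)
  rw [Finset.sum_eq_zero_iff_of_nonneg (fun e _ => hn t _ e)] at h2
  have h3 := h2 l[t] (Finset.mem_univ _)
  have h4 : (0 : ℝ) < s (c.src l[0]) := by
    refine hh _ ?_
    rw [List.head?_eq_getElem?, List.getElem?_eq_getElem h0]
    exact Option.mem_some_self _
  have h5 := P_pos c l hw h0 t ht
  have h6 : (0 : ℝ) < c.wt l[t] := hw.1 _ (List.getElem_mem _)
  have h7 : s (c.src l[0]) * c.P t (c.src l[0]) (c.src l[t]) * c.wt l[t] ≠ 0 :=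
    ne_of_gt (mul_pos (mul_pos h4 h5) h6)
  exact (mul_eq_zero.mp h3).resolve_left h7

end Pool.Agent.H48.AT
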