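import Pool.Agent.H67.AT.Targets
import Pool.Agent.H67.AT.Ser

/-!
MP_81fcf0_co, blocks of a Markov chain: row GLU, gluing of paths.
-/

set_option autoImplicit false

open Finset PowerSeries Pool.Agent.H67.AT

namespace Pool.Agent.H48.AT

theorem prod_blocks {𝓡 : Type} [CommMonoid 𝓡] (G : ℕ → 𝓡) (k N : ℕ) :
    ∏ t ∈ range (N * k), G t = ∏ j ∈ range N, ∏ i : Fin k, G (j * k + i) := by
  induction N with
  | zero => simp
  | succ N ih =>
    rw [Nat.succ_mul, Finset.prod_range_add, ih, Finset.prod_range_succ]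
    congr 1
    exact Finset.prod_range (fun i => G (N * k + i))

theorem pf_GLU : T_GLU := by
  intro X k N ω r hk hr
  have hk0 : 0 < k := hk
  let ω' : ℕ → X := fun t => if t < N * k then
    r (t / k) ⟨t % k, (Nat.mod_lt _ hk0).trans (Nat.lt_succ_self k)⟩ else ω N
  have h1 : ∀ j < N, ∀ i : Fin k, ω' (j * k + i) = r j i.castSucc := by
    intro j hj i
    have hlt : j * k + i < N * k := by
      have h2 : (j + 1) * k ≤ N * k := Nat.mul_le_mul_right k hj
      have h3 := i.isLt
      rw [Nat.succ_mul] at h2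
      omega
    have hdiv : (j * k + i) / k = j := by
      rw [Nat.add_comm, Nat.add_mul_div_right _ _ hk0, Nat.div_eq_of_lt i.isLt, zero_add]
    have hmod : (j * k + i) % k = i := by
      rw [Nat.add_comm, Nat.add_mul_mod_self_right, Nat.mod_eq_of_lt i.isLt]
    change (if j * k + i < N * k then r ((j * k + i) / k) ⟨(j * k + i) % k, _⟩ else ω N) = _
    rw [if_pos hlt, hdiv]
    congr 1
    exact Fin.ext hmod
  have hN : ω' (N * k) = ω N := by
    change (if N * k < N * k then r ((N * k) / k) ⟨(N * k) % k, _⟩ else ω N) = _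
    rw [if_neg (lt_irrefl _)]
  have h2 : ∀ j < N, ∀ i : Fin k, ω' (j * k + i + 1) = r j i.succ := by
    intro j hj i
    by_cases hi : (i : ℕ) + 1 < k
    · have h3 := h1 j hj ⟨i + 1, hi⟩
      rw [← add_assoc] at h3
      rw [h3]
      congr 1
    · have hi' : (i : ℕ) + 1 = k := by have := i.isLt; omega
      have hlast : i.succ = Fin.last k := Fin.ext hi'
      have h4 : j * k + i + 1 = (j + 1) * k := by rw [Nat.succ_mul]; omega
      rw [h4, hlast, (hr j hj).2]
      by_cases hjN : j + 1 < N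
      · have h3 := h1 (j + 1) hjN ⟨0, hk0⟩
        have h5 : (j + 1) * k + ((⟨0, hk0⟩ : Fin k) : ℕ) = (j + 1) * k := by simp
        rw [h5] at h3
        rw [h3, ← (hr (j + 1) hjN).1]
        congr 1
      · have h5 : j + 1 = N := by omega
        rw [h5, hN]
  refine ⟨ω', ?_, hN, fun j hj i => ⟨h1 j hj i, h2 j hj i⟩, fun 𝓡 _ F => ?_⟩
  · rcases Nat.eq_zero_or_pos N with h | h
    · have h3 := hN
      rw [h, Nat.zero_mul] at h3
      exact h3
    · have h3 := h1 0 h ⟨0, hk0⟩
      have h5 : 0 * k + ((⟨0, hk0⟩ : Fin k) : ℕ) = 0 := by simp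
      rw [h5] at h3
      rw [h3, ← (hr 0 h).1]
      congr 1
  · rw [prod_blocks (fun t => F (ω' t) (ω' (t + 1))) k N]
    refine Finset.prod_congr rfl fun j hj => Finset.prod_congr rfl fun i _ => ?_
    have hj' := Finset.mem_range.mp hj
    change F (ω' (j * k + i)) (ω' (j * k + i + 1)) = _
    rw [h1 j hj' i, h2 j hj' i]

end Pool.Agent.H48.AT
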